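import Pool.Agent.Helper1.TE.Goals

/-! Packet TE-CO of project TE (MP_8b4d68_lc). -/

namespace Pool.Agent.Helper77.TE

open Pool.Agent.Helper1.TE
open Finset

theorem bit_sum_lt (f : ℕ → ℕ) (hf : ∀ i, f i ≤ 1) (s : ℕ) :
    ∑ t ∈ range s, f t * 2 ^ t < 2 ^ s := by
  induction s with
  | zero => simp
  | succ s ih =>
    rw [sum_range_succ, pow_succ]
    have h : f s * 2 ^ s ≤ 1 * 2 ^ s := Nat.mul_le_mul_right _ (hf s)
    omega

theorem bitc_le (b a p i : ℕ) : bitc b a p i ≤ 1 := by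
  unfold bitc
  omega

theorem sym_le (s b a p i : ℕ) : sym s b a p i ≤ 2 ^ s - 1 := by
  have h := bit_sum_lt (fun t => bitc b a p (i * s + t)) (fun t => bitc_le _ _ _ _) s
  unfold sym
  omega

theorem gCO : GoalCO := by
  intro hCL hCD b a s hs hsb hg
  have hb : 1 ≤ b := hs.trans hsb
  have hM : 1 ≤ (4 * b + s - 1) / s := by
    rw [Nat.one_le_div_iff (by omega)]
    omega
  have hR : 1 ≤ (b + 4 * s - 1) / (4 * s) := by
    rw [Nat.one_le_div_iff (by omega)]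
    omega
  generalize hMd : (4 * b + s - 1) / s = M at hM ⊢
  have hQ : 1 ≤ 2 ^ s - 1 := by
    have : 2 ^ 1 ≤ 2 ^ s := Nat.pow_le_pow_right (by norm_num) hs
    omega
  have hsy := sym_le s b a
  generalize hQd : 2 ^ s - 1 = Q at hQ hsy ⊢
  have hQ2 : Q ≤ Q ^ 2 := by nlinarith
  refine ⟨?_, hR, ?_, ?_, ?_, ?_⟩
  · exact Nat.mul_pos hM (pow_pos hQ 2)
  · intro p _ i _
    calc sym s b a p i ≤ Q := hsy p i
      _ ≤ Q ^ 2 := hQ2
      _ ≤ M * Q ^ 2 := Nat.le_mul_of_pos_left _ hM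
  · intro p _
    unfold nrm
    calc ∑ i ∈ range M, sym s b a p i ^ 2 ≤ ∑ _i ∈ range M, Q ^ 2 :=
          sum_le_sum fun i _ => Nat.pow_le_pow_left (hsy p i) 2
      _ = M * Q ^ 2 := by simp
  · intro p hp q hq hpq
    have h := hCD hCL b a s p q hs hsb hg hp hq hpq
    rw [hMd] at h
    exact h
  · intro p _ q _
    unfold dst
    have h1 : ∀ i ∈ range M, ((sym s b a p i : ℤ) - sym s b a q i) ^ 2 ≤ (Q : ℤ) ^ 2 := by
      intro i _
      have h1 : (sym s b a p i : ℤ) ≤ Q := by exact_mod_cast hsy p i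
      have h2 : (sym s b a q i : ℤ) ≤ Q := by exact_mod_cast hsy q i
      have h3 : (0 : ℤ) ≤ sym s b a p i := Int.natCast_nonneg _
      have h4 : (0 : ℤ) ≤ sym s b a q i := Int.natCast_nonneg _
      apply sq_le_sq'
      · linarith
      · linarith
    calc ∑ i ∈ range M, ((sym s b a p i : ℤ) - sym s b a q i) ^ 2
        ≤ ∑ _i ∈ range M, (Q : ℤ) ^ 2 := sum_le_sum h1
      _ = ((M * Q ^ 2 : ℕ) : ℤ) := by simp

end Pool.Agent.Helper77.TE
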